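import Pool.Agent.TH275.KL.Smooth

/-! # The mean number of limit cycles is polylogarithmic in the degree

For planar polynomial systems of degree at most `n` all of whose coefficients are independent standard
normal variables (the Kac ensemble) the expected number of all closed orbits in the plane is at most
`4 * 10 ^ 17 * (1 + log n) ^ 5`. If such noise of standard deviation `σ` is added to an arbitrary
system `c₀` of degree at most `n`, the expected number is at most
`7 * 10 ^ 20 * X * (1 + log (n X)) ^ 3 * min (n ^ 2) ((1 + log n) ^ 2 * X ^ 2)`, where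
`X = 1 + |c₀| / σ`; it is polylogarithmic in `n` if the noise is comparable to the system.

The proof (starting helper files `Pool.Agent.TH275.KL`, `Pool.Agent.W960.KS`) bounds the mean number of
closed orbits by the mean number of equilibria, up to the cube of a logarithm, and the mean number of
equilibria of these ensembles by the square of a logarithm. -/

open MeasureTheory
open scoped ENNReal

namespace Pool.Agent.Results.MP_95e7ec_an.PolylogarithmicMean

/-- the exponents `(i,j)` of all monomials `x^i y^j` of degree at most `n` -/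
def exponents (n : ℕ) : Finset (ℕ × ℕ) :=
  (Finset.range (n + 1) ×ˢ Finset.range (n + 1)).filter fun m => m.1 + m.2 ≤ n

/-- The number of all nonconstant closed orbits (limit cycles or not) in the plane `ℝ²` of the system
`x' = ∑ a_{ij} x^i y^j`, `y' = ∑ b_{ij} x^i y^j`, `i + j ≤ n`, where `c (i,j) = (a_{ij}, b_{ij})`. -/
noncomputable def closedOrbits (n : ℕ) (c : exponents n → ℝ × ℝ) : ℝ≥0∞ :=
  (({C : Set (ℝ × ℝ) | ∃ γ : ℝ → ℝ × ℝ, ∃ T : ℝ, 0 < T ∧
    (∀ t : ℝ, HasDerivAt γ
      (∑ m : exponents n, (c m).1 * ((γ t).1 ^ m.1.1 * (γ t).2 ^ m.1.2),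
       ∑ m : exponents n, (c m).2 * ((γ t).1 ^ m.1.1 * (γ t).2 ^ m.1.2)) t) ∧
    (∀ t : ℝ, γ (t + T) = γ t) ∧ (∃ s t : ℝ, γ s ≠ γ t) ∧ C = Set.range γ}.encard : ℕ∞) : ℝ≥0∞)

/-- the Euclidean length of the vector of all coefficients -/
noncomputable def size (n : ℕ) (c : exponents n → ℝ × ℝ) : ℝ :=
  √(∑ m : exponents n, ((c m).1 ^ 2 + (c m).2 ^ 2))

/-- the system with coefficients `c₀ + σ g` -/
def perturbed (n : ℕ) (c₀ : exponents n → ℝ × ℝ) (σ : ℝ) (g : exponents n → ℝ × ℝ) :
    exponents n → ℝ × ℝ :=
  fun m => ((c₀ m).1 + σ * (g m).1, (c₀ m).2 + σ * (g m).2)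

/-- the law of a vector of independent standard normal variables: the Kac ensemble -/
noncomputable def kac (n : ℕ) : Measure (exponents n → ℝ × ℝ) :=
  Measure.pi fun _ : exponents n =>
    (ProbabilityTheory.gaussianReal 0 1).prod (ProbabilityTheory.gaussianReal 0 1)

lemma closedOrbits_eq (n : ℕ) (c : exponents n → ℝ × ℝ) : closedOrbits n c = H709R2.NP c := by
  have h1 : ∀ p : ℝ × ℝ, (∑ m : exponents n, (c m).1 * (p.1 ^ m.1.1 * p.2 ^ m.1.2),
      ∑ m : exponents n, (c m).2 * (p.1 ^ m.1.1 * p.2 ^ m.1.2)) = H709R2.fld c p := by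
    intro p
    unfold H709R2.fld
    ext
    · simp only [Prod.fst_sum, Prod.smul_fst, smul_eq_mul]
      exact Finset.sum_congr rfl fun m _ => mul_comm _ _
    · simp only [Prod.snd_sum, Prod.smul_snd, smul_eq_mul]
      exact Finset.sum_congr rfl fun m _ => mul_comm _ _
  unfold H709R2.NP closedOrbits H709R2.ClosedOrbit
  simp only [h1]

/-- **The mean number of limit cycles is polylogarithmic in the degree.** For every `n ≥ 1`:

* the number of closed orbits is a Borel function of the coefficients;
* if all coefficients of the system are independent standard normal variables, the expected number of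
  its closed orbits is at most `4 * 10 ^ 17 * (1 + log n) ^ 5`;
* for every system `c₀` of degree at most `n` and every `σ > 0`, if `g` is a vector of independent
  standard normal variables, the expected number of closed orbits of the system with coefficients
  `c₀ + σ g` is at most `7 * 10 ^ 20 * X * (1 + log (n X)) ^ 3 * min (n ^ 2) ((1 + log n) ^ 2 * X ^ 2)`,
  where `X = 1 + |c₀| / σ`. -/
theorem result (n : ℕ) (hn : 1 ≤ n) :
    Measurable (closedOrbits n) ∧
    ∫⁻ c, closedOrbits n c ∂(kac n) ≤ ENNReal.ofReal (4 * 10 ^ 17 * (1 + Real.log n) ^ 5) ∧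
    ∀ (c₀ : exponents n → ℝ × ℝ) (σ : ℝ), 0 < σ →
      ∫⁻ g, closedOrbits n (perturbed n c₀ σ g) ∂(kac n) ≤
        ENNReal.ofReal (7 * 10 ^ 20 * (1 + size n c₀ / σ) *
          (1 + Real.log (n * (1 + size n c₀ / σ))) ^ 3 *
          min ((n:ℝ) ^ 2) ((1 + Real.log n) ^ 2 * (1 + size n c₀ / σ) ^ 2)) := by
  have hc : closedOrbits n = H709R2.NP := funext fun c => closedOrbits_eq n c
  rw [hc]
  exact ⟨H709R2.measurable_NP, TH275.KL.kacK hn, fun c₀ σ hσ => TH275.KL.kac_smoothedK hn c₀ hσ⟩

end Pool.Agent.Results.MP_95e7ec_an.PolylogarithmicMean
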