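import Pool.Agent.H709Q.Meas
import Pool.Agent.Y96.HP.Pers

/-! # Quadratic systems have boundedly many closed orbits on average over the rotations

There is an absolute bound, independent of the system, for the mean number of closed orbits in the whole
plane (limit cycles or not, of all sizes and shapes) of the systems obtained from a quadratic system
by rotating the vector field: it is at most 246 millions. Hence the same bound holds for the expected
number of closed orbits of a random quadratic system, for every law of the coefficients which is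
invariant under the rotations, and the limit cycles of every single quadratic system have positive
weights (the survival lengths) with sum at most 1544 millions. -/

open Set MeasureTheory
open scoped ENNReal

namespace Pool.Agent.Results.MP_95e7ec_an.QuadraticMean

/-- the general planar vector field of degree at most two, with the six coefficient vectors `c i` -/
def quad (c : Fin 6 → ℝ × ℝ) (z : ℝ × ℝ) : ℝ × ℝ :=
  c 0 + z.1 • c 1 + z.2 • c 2 + z.1 ^ 2 • c 3 + (z.1 * z.2) • c 4 + z.2 ^ 2 • c 5

/-- rotation of the plane by the angle `a` -/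
noncomputable def turn (a : ℝ) (v : ℝ × ℝ) : ℝ × ℝ :=
  (Real.cos a * v.1 - Real.sin a * v.2, Real.sin a * v.1 + Real.cos a * v.2)

/-- rotation of all coefficient vectors by the angle `a` -/
noncomputable def rotc (a : ℝ) (c : Fin 6 → ℝ × ℝ) : Fin 6 → ℝ × ℝ := fun i => turn a (c i)

/-- rotating the coefficient vectors is the same as rotating the vector field at every point -/
lemma quad_rotc (a : ℝ) (c : Fin 6 → ℝ × ℝ) (z : ℝ × ℝ) :
    quad (rotc a c) z = turn a (quad c z) :=
  H709Q.qf_rc a c z

/-- all closed orbits in the whole plane (ranges of nonconstant periodic solutions, limit cycles or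
not) of the system `z' = quad c z` -/
def closedOrbits (c : Fin 6 → ℝ × ℝ) : Set (Set (ℝ × ℝ)) :=
  {C | ∃ γ : ℝ → ℝ × ℝ, ∃ T : ℝ, 0 < T ∧ (∀ t : ℝ, HasDerivAt γ (quad c (γ t)) t) ∧
    (∀ t : ℝ, γ (t + T) = γ t) ∧ (∃ s t : ℝ, γ s ≠ γ t) ∧ C = Set.range γ}

/-- the number of closed orbits in the whole plane, possibly `∞`, of the system `z' = quad c z` -/
noncomputable def number (c : Fin 6 → ℝ × ℝ) : ℝ≥0∞ := (((closedOrbits c).encard : ℕ∞) : ℝ≥0∞)

/-- the limit cycles: closed orbits with a neighbourhood which contains no other closed orbit -/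
def limitCycles (c : Fin 6 → ℝ × ℝ) : Set (Set (ℝ × ℝ)) :=
  {C | C ∈ closedOrbits c ∧
    ∃ U : Set (ℝ × ℝ), IsOpen U ∧ C ⊆ U ∧ ∀ D ∈ closedOrbits c, D ⊆ U → D = C}

/-- The closed orbit `C` of `z' = quad c z` survives the rotations of the field up to the angle `η`:
there is a continuous path `τ ↦ γ τ`, `0 ≤ τ ≤ 1`, of pairwise different closed orbits of the fields
rotated by angles `a τ`, which starts with `C` at the angle `0`, ends at the angle `η`, and whose
angles in between lie strictly between `0` and `η`. -/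
def Survives (c : Fin 6 → ℝ × ℝ) (η : ℝ) (C : Set (ℝ × ℝ)) : Prop :=
  ∃ (a : ℝ → ℝ) (γ : ℝ → ℝ → ℝ × ℝ) (T : ℝ → ℝ),
    ContinuousOn a (Icc 0 1) ∧ a 0 = 0 ∧ a 1 = η ∧
    (∀ τ ∈ Ioo 0 1, min 0 η < a τ ∧ a τ < max 0 η) ∧
    ContinuousOn (fun q : ℝ × ℝ => γ q.1 q.2) (Icc 0 1 ×ˢ univ) ∧ ContinuousOn T (Icc 0 1) ∧
    (∀ τ ∈ Icc 0 1, 0 < T τ ∧ (∀ t, HasDerivAt (γ τ) (turn (a τ) (quad c (γ τ t))) t) ∧
      (∀ t, γ τ (t + T τ) = γ τ t) ∧ (∃ s t, γ τ s ≠ γ τ t)) ∧
    (∀ τ ∈ Icc 0 1, ∀ τ' ∈ Icc 0 1, range (γ τ) = range (γ τ') → τ = τ') ∧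
    C = range (γ 0)

/-- the length of the set of angles `η` in `(-π, π)` such that the closed orbit `C` survives the
rotations up to the angle `η` -/
noncomputable def survival (c : Fin 6 → ℝ × ℝ) (C : Set (ℝ × ℝ)) : ℝ≥0∞ :=
  volume {η : ℝ | η ∈ Ioo (-Real.pi) Real.pi ∧ Survives c η C}

lemma survives_iff (c : Fin 6 → ℝ × ℝ) (η : ℝ) (C : Set (ℝ × ℝ)) :
    Survives c η C ↔ W960.HP.PersG (quad c) (fun _ _ => True) η C := by
  constructor
  · rintro ⟨a, γ, T, h1, h2, h3, h4, h5, h6, h7, h8, h9⟩
    exact ⟨a, γ, T, h1, h2, h3, h4, h5, h6, fun τ hτ =>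
      ⟨(h7 τ hτ).1, (h7 τ hτ).2.1, (h7 τ hτ).2.2.1, (h7 τ hτ).2.2.2, trivial⟩, h8, h9⟩
  · rintro ⟨a, γ, T, h1, h2, h3, h4, h5, h6, h7, h8, h9⟩
    exact ⟨a, γ, T, h1, h2, h3, h4, h5, h6, fun τ hτ =>
      ⟨(h7 τ hτ).1, (h7 τ hτ).2.1, (h7 τ hτ).2.2.1, (h7 τ hτ).2.2.2.1⟩, h8, h9⟩

lemma contDiff_quad (c : Fin 6 → ℝ × ℝ) : ContDiff ℝ 2 (quad c) := by
  have h : quad c = (H709Q.toQF c).f := (H709Q.toQF_f c).symm
  rw [h]
  exact H709Q.QF.contDiff_f _

/-- the total survival -/
lemma total (c : Fin 6 → ℝ × ℝ) :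
    ∑' C : closedOrbits c, survival c C ≤ ENNReal.ofReal (1544 * 10 ^ 6) := by
  have hM : H709Q.Maj (fun α => (({D | H709R2.ClosedOrbit (H709U.rf (quad c) α) D ∧ True}.encard :
      ℕ∞) : ℝ≥0∞)) (8 * (3300000 + 93200000)) := by
    obtain ⟨g, hg1, hg2, hg3⟩ := H709Q.mainK (H709Q.toQF c)
    refine ⟨g, hg1, fun α hα => ?_, hg3⟩
    refine le_trans (le_of_eq ?_) (hg2 α hα)
    have h1 : H709U.rf (quad c) α = ((H709Q.toQF c).rot α).f := by
      funext z
      rw [H709Q.QF.f_rot, H709Q.toQF_f]
      rfl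
    simp only [and_true, h1]
  have h := W960.HP.totalG (contDiff_quad c) (G := fun _ _ => True) (fun _ _ _ => trivial)
    (by norm_num) hM (closedOrbits c)
  refine le_trans (le_of_eq (tsum_congr fun C => ?_)) (h.trans (ENNReal.ofReal_le_ofReal
    (by norm_num)))
  unfold survival
  simp only [survives_iff]

/-- **Quadratic systems on average.**

* The number of all closed orbits in the whole plane is a Borel function of the quadratic system. For
  every quadratic system, its integral over all rotations of the field, by the angles in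
  `(0, 2 π]`, is at most `1544 * 10 ^ 6`; so the mean number of closed orbits is at most `246 * 10 ^ 6`.
* For every probability law of the six coefficient vectors which is invariant under the rotations of
  the field, the expected number of all closed orbits of the system in the plane is at most
  `246 * 10 ^ 6`.
* For every quadratic system the sum of the survival lengths of all its closed orbits in the plane is
  at most `1544 * 10 ^ 6`; every limit cycle has positive survival length; and at most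
  `1544 * 10 ^ 6 / η` closed orbits survive the rotations up to `η` or up to `-η`, for `0 < η < π`. -/
theorem result :
    Measurable number ∧
    (∀ c : Fin 6 → ℝ × ℝ,
      ∫⁻ a in Ioc 0 (2 * Real.pi), number (rotc a c) ≤ ENNReal.ofReal (1544 * 10 ^ 6)) ∧
    (∀ μ : Measure (Fin 6 → ℝ × ℝ), IsProbabilityMeasure μ → (∀ a, μ.map (rotc a) = μ) →
      ∫⁻ c, number c ∂μ ≤ ENNReal.ofReal (246 * 10 ^ 6)) ∧
    ∀ c : Fin 6 → ℝ × ℝ,
      ∑' C : closedOrbits c, survival c C ≤ ENNReal.ofReal (1544 * 10 ^ 6) ∧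
      (∀ C ∈ limitCycles c, 0 < survival c C) ∧
      ∀ η : ℝ, 0 < η → η < Real.pi →
        (({C | C ∈ closedOrbits c ∧ (Survives c η C ∨ Survives c (-η) C)}.encard : ℕ∞) : ℝ≥0∞) ≤
          ENNReal.ofReal (1544 * 10 ^ 6 / η) := by
  refine ⟨H709Q.measurable_NQ, fun c => (H709Q.main_single c).2,
    fun μ hμ h => H709Q.main_measure μ h, fun c => ⟨total c, fun C hC => ?_, fun η hη hη' => ?_⟩⟩
  · obtain ⟨hC1, U, hU, hCU, hiso⟩ := hC
    have h1 := Y96.HP.pos_pers (contDiff_quad c) hC1 hU hCU (fun D hD hDU => hiso D hD hDU)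
      (G := fun _ _ => True)
      (fun _ _ ε₀ hε₀ _ _ _ _ => ⟨ε₀, hε₀, le_rfl, fun _ _ _ => trivial⟩) Real.pi_pos
    unfold survival
    simp only [survives_iff]
    exact h1
  · have h1 := Y96.HP.card_mul_le (total c)
      (A := {C | C ∈ closedOrbits c ∧ (Survives c η C ∨ Survives c (-η) C)})
      (fun C hC => hC.1) (e := ENNReal.ofReal η) (fun C hC => by
        unfold survival
        simp only [survives_iff]
        rcases hC.2 with h | h
        · have h2 := Y96.HP.le_pers (η := η) ⟨by linarith, hη'⟩ ((survives_iff c η C).1 h)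
          rwa [abs_of_pos hη] at h2
        · have h2 := Y96.HP.le_pers (η := -η) ⟨by linarith, by linarith⟩
            ((survives_iff c _ C).1 h)
          rwa [abs_neg, abs_of_pos hη] at h2)
    rw [ENNReal.ofReal_div_of_pos hη, ENNReal.le_div_iff_mul_le
      (Or.inl (ENNReal.ofReal_pos.2 hη).ne') (Or.inl ENNReal.ofReal_ne_top)]
    exact h1

end Pool.Agent.Results.MP_95e7ec_an.QuadraticMean
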