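import Pool.Agent.TH275.LF.Lien3

/-! # Lienard systems with few monomials: the mean number of limit cycles does not depend on the degree

For the polynomial Lienard systems `x' = y - p(x) + s x`, `y' = -x` the number of closed orbits in the
whole plane, averaged over an arbitrary interval of length one of the parameter `s`, is at most
`900000 (m + 1) ^ 2`, where `m` is the number of monomials of degree at least two of `p`; the degree
and the coefficients of `p` are arbitrary. The total length of the parameter intervals up to which the
closed orbits of a single system persist is at most `1800000 (m + 1) ^ 2`. -/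

open Set MeasureTheory
open scoped ENNReal

namespace Pool.Agent.Results.MP_95e7ec_an.SparseLienard

/-- the Lienard field `x' = y - p(x) + s x`, `y' = -x` -/
noncomputable def lienard (p : Polynomial ℝ) (s : ℝ) (z : ℝ × ℝ) : ℝ × ℝ :=
  (z.2 - p.eval z.1 + s * z.1, -z.1)

/-- all closed orbits in the whole plane (ranges of nonconstant periodic solutions, limit cycles or
not) of the Lienard system with parameter `s` -/
def closedOrbits (p : Polynomial ℝ) (s : ℝ) : Set (Set (ℝ × ℝ)) :=
  {C | ∃ γ : ℝ → ℝ × ℝ, ∃ T : ℝ, 0 < T ∧ (∀ t : ℝ, HasDerivAt γ (lienard p s (γ t)) t) ∧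
    (∀ t : ℝ, γ (t + T) = γ t) ∧ (∃ s t : ℝ, γ s ≠ γ t) ∧ C = Set.range γ}

/-- the number of closed orbits in the whole plane, possibly `∞` -/
noncomputable def number (p : Polynomial ℝ) (s : ℝ) : ℝ≥0∞ :=
  (((closedOrbits p s).encard : ℕ∞) : ℝ≥0∞)

/-- the number of monomials of `p` of degree at least two -/
def monomials (p : Polynomial ℝ) : ℕ := (p.support.filter (fun e => 2 ≤ e)).card

/-- The closed orbit `C` of the system with parameter `0` persists when the parameter runs from `0` to
`η`: there are a continuous map `(a, t) ↦ γ a t` and a continuous positive function `a ↦ T a` such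
that for all parameters `a` between `0` and `η` the curve `γ a` is a nonconstant solution of period
`T a` of the system with parameter `a`, and `C` is the range of `γ 0`. -/
def Persists (p : Polynomial ℝ) (η : ℝ) (C : Set (ℝ × ℝ)) : Prop :=
  ∃ γ : ℝ → ℝ → ℝ × ℝ, ∃ T : ℝ → ℝ,
    ContinuousOn (fun q : ℝ × ℝ => γ q.1 q.2) (uIcc 0 η ×ˢ univ) ∧ ContinuousOn T (uIcc 0 η) ∧
    (∀ a ∈ uIcc 0 η, 0 < T a ∧ (∀ t, HasDerivAt (γ a) (lienard p a (γ a t)) t) ∧
      (∀ t, γ a (t + T a) = γ a t) ∧ ∃ s t, γ a s ≠ γ a t) ∧
    C = range (γ 0)

/-- **Lienard systems with few monomials.** Let `p` be a real polynomial of any degree, with `m`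
monomials of degree at least two.

* For every real `a` the integral over the parameters `s` in `(a, a + 1)` of the number of closed orbits
  in the plane of `x' = y - p(x) + s x`, `y' = -x` is at most `900000 (m + 1) ^ 2`.
* The sum over all closed orbits of `x' = y - p(x)`, `y' = -x` of the lengths of the sets of parameters
  in `(-1, 1)` up to which they persist is at most `1800000 (m + 1) ^ 2`. -/
theorem result (p : Polynomial ℝ) :
    (∀ a : ℝ, ∫⁻ s in Ioo a (a + 1), number p s ≤
      ENNReal.ofReal (900000 * (monomials p + 1) ^ 2)) ∧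
    ∑' C : closedOrbits p 0, volume {η : ℝ | η ∈ Ioo (-1) 1 ∧ Persists p η C} ≤
      ENNReal.ofReal (1800000 * (monomials p + 1) ^ 2) :=
  ⟨fun a => TH275.LF.mean_sparse p (monomials p) le_rfl a,
    TH275.LF.total_sparse p (monomials p) le_rfl (closedOrbits p 0)⟩

end Pool.Agent.Results.MP_95e7ec_an.SparseLienard
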