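import Pool.Agent.W960.HQ.Posq
import Pool.Agent.Y96.HP.Pers

/-! # A polynomial bound for the number of closed orbits, of all sizes, of rotated polynomial fields

For every planar polynomial vector field of degree at most `n` (not identically zero) and every
`0 < ε ≤ 1`, the field rotated by an angle `a` has at most
`10 ^ 9 (n + 1) ^ 8 (1 + log ((n + 1) / ε)) / ε` closed orbits in the whole plane, of any size and
shape, for all angles `a` outside a set of measure `ε`. There is no condition on the size, the shape or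
the position of the closed orbits, and the bound does not depend on the coefficients. Consequences:
moments of every order less than one, the number of the closed orbits of the given field which
survive the rotations up to `ε`, and a weighted form of Hilbert's sixteenth problem in which every
limit cycle has a positive weight. -/

open Set MeasureTheory
open scoped ENNReal

namespace Pool.Agent.Results.MP_95e7ec_an.TypicalRotation

/-- the vector field `(P, Q)` rotated by the angle `a` -/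
noncomputable def rotated (P Q : MvPolynomial (Fin 2) ℝ) (a : ℝ) (z : ℝ × ℝ) : ℝ × ℝ :=
  (Real.cos a * MvPolynomial.eval ![z.1, z.2] P - Real.sin a * MvPolynomial.eval ![z.1, z.2] Q,
    Real.sin a * MvPolynomial.eval ![z.1, z.2] P + Real.cos a * MvPolynomial.eval ![z.1, z.2] Q)

/-- all closed orbits in the whole plane (ranges of nonconstant periodic solutions, limit cycles or
not) of the field `(P, Q)` rotated by the angle `a`; for `a = 0` these are the closed orbits of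
`x' = P, y' = Q` (`rotated_zero`) -/
def closedOrbits (P Q : MvPolynomial (Fin 2) ℝ) (a : ℝ) : Set (Set (ℝ × ℝ)) :=
  {C | ∃ γ : ℝ → ℝ × ℝ, ∃ T : ℝ, 0 < T ∧ (∀ t : ℝ, HasDerivAt γ (rotated P Q a (γ t)) t) ∧
    (∀ t : ℝ, γ (t + T) = γ t) ∧ (∃ s t : ℝ, γ s ≠ γ t) ∧ C = Set.range γ}

/-- the number of closed orbits in the whole plane, possibly `∞`, of the field `(P, Q)` rotated by
the angle `a` -/
noncomputable def number (P Q : MvPolynomial (Fin 2) ℝ) (a : ℝ) : ℝ≥0∞ :=
  (((closedOrbits P Q a).encard : ℕ∞) : ℝ≥0∞)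

/-- the limit cycles of `x' = P, y' = Q`: closed orbits with a neighbourhood which contains no other
closed orbit -/
def limitCycles (P Q : MvPolynomial (Fin 2) ℝ) : Set (Set (ℝ × ℝ)) :=
  {C | C ∈ closedOrbits P Q 0 ∧
    ∃ U : Set (ℝ × ℝ), IsOpen U ∧ C ⊆ U ∧ ∀ D ∈ closedOrbits P Q 0, D ⊆ U → D = C}

/-- The closed orbit `C` of `(P, Q)` survives the rotations of the field up to the angle `η`: there
is a continuous path `τ ↦ γ τ`, `0 ≤ τ ≤ 1`, of pairwise different closed orbits of the fields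
rotated by angles `a τ`, which starts with `C` at the angle `0`, ends at the angle `η`, and whose
angles in between lie strictly between `0` and `η`. -/
def Survives (P Q : MvPolynomial (Fin 2) ℝ) (η : ℝ) (C : Set (ℝ × ℝ)) : Prop :=
  ∃ (a : ℝ → ℝ) (γ : ℝ → ℝ → ℝ × ℝ) (T : ℝ → ℝ),
    ContinuousOn a (Icc 0 1) ∧ a 0 = 0 ∧ a 1 = η ∧
    (∀ τ ∈ Ioo 0 1, min 0 η < a τ ∧ a τ < max 0 η) ∧
    ContinuousOn (fun q : ℝ × ℝ => γ q.1 q.2) (Icc 0 1 ×ˢ univ) ∧ ContinuousOn T (Icc 0 1) ∧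
    (∀ τ ∈ Icc 0 1, 0 < T τ ∧ (∀ t, HasDerivAt (γ τ) (rotated P Q (a τ) (γ τ t)) t) ∧
      (∀ t, γ τ (t + T τ) = γ τ t) ∧ (∃ s t, γ τ s ≠ γ τ t)) ∧
    (∀ τ ∈ Icc 0 1, ∀ τ' ∈ Icc 0 1, range (γ τ) = range (γ τ') → τ = τ') ∧
    C = range (γ 0)

/-- the length of the set of angles `η` in `(-1, 1)` such that the closed orbit `C` survives the
rotations up to the angle `η` -/
noncomputable def survival (P Q : MvPolynomial (Fin 2) ℝ) (C : Set (ℝ × ℝ)) : ℝ≥0∞ :=
  volume {η : ℝ | η ∈ Ioo (-1) 1 ∧ Survives P Q η C}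

/-- the rotation by the angle `0` does not change the field -/
lemma rotated_zero (P Q : MvPolynomial (Fin 2) ℝ) (z : ℝ × ℝ) : rotated P Q 0 z =
    (MvPolynomial.eval ![z.1, z.2] P, MvPolynomial.eval ![z.1, z.2] Q) := by
  simp [rotated]

variable {n : ℕ} {P Q : MvPolynomial (Fin 2) ℝ}

lemma number_eq (a : ℝ) : number P Q a = (((H709U.Cl P Q a).encard : ℕ∞) : ℝ≥0∞) := rfl

lemma mem_closedOrbits (C : Set (ℝ × ℝ)) :
    C ∈ closedOrbits P Q 0 ↔ H709R2.ClosedOrbit (H709R2.field P Q) C := by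
  have h : C ∈ closedOrbits P Q 0 ↔ H709R2.ClosedOrbit (H709U.rf (H709R2.field P Q) 0) C := Iff.rfl
  rw [h, W960.HP.rf_zero]

lemma survives_iff (η : ℝ) (C : Set (ℝ × ℝ)) :
    Survives P Q η C ↔ W960.HP.PersG (H709R2.field P Q) (fun _ _ => True) η C := by
  constructor
  · rintro ⟨a, γ, T, h1, h2, h3, h4, h5, h6, h7, h8, h9⟩
    exact ⟨a, γ, T, h1, h2, h3, h4, h5, h6, fun τ hτ =>
      ⟨(h7 τ hτ).1, (h7 τ hτ).2.1, (h7 τ hτ).2.2.1, (h7 τ hτ).2.2.2, trivial⟩, h8, h9⟩
  · rintro ⟨a, γ, T, h1, h2, h3, h4, h5, h6, h7, h8, h9⟩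
    exact ⟨a, γ, T, h1, h2, h3, h4, h5, h6, fun τ hτ =>
      ⟨(h7 τ hτ).1, (h7 τ hτ).2.1, (h7 τ hτ).2.2.1, (h7 τ hτ).2.2.2.1⟩, h8, h9⟩

/-- **Every polynomial vector field `(P, Q)` of degree at most `n`, not identically zero:**

* for `0 < ε ≤ 1` and all angles `a` in `(0, π)` outside a set of measure at most `ε` the field rotated
  by `a` has at most `10 ^ 9 (n + 1) ^ 8 (1 + log ((n + 1) / ε)) / ε` closed orbits in the plane;
* every interval of angles of length `ε` contains an angle `a` such that the field rotated by `a` has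
  at most `4 * 10 ^ 9 (n + 1) ^ 8 (1 + log ((n + 1) / ε)) / ε` closed orbits in the plane;
* for `0 < q < 1` the integral over all angles of the `q`-th power of the number of closed orbits in
  the plane is at most `10 ^ 11 (n + 1) ^ 9 / (1 - q) ^ 2`;
* at most `8 * 10 ^ 9 (n + 1) ^ 8 (1 + log ((n + 1) / ε)) / ε` closed orbits of the field itself survive
  the rotations up to `ε` or up to `-ε`;
* for `0 < κ ≤ 1` the sum over all closed orbits of the field itself of the `(1 + κ)`-th powers of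
  their survival lengths is at most `3 * 10 ^ 11 (n + 1) ^ 9 / κ ^ 2`;
* every limit cycle has positive survival length. -/
theorem result (n : ℕ) (P Q : MvPolynomial (Fin 2) ℝ) (hP : P.totalDegree ≤ n)
    (hQ : Q.totalDegree ≤ n) (hne : P ≠ 0 ∨ Q ≠ 0) :
    (∀ ε : ℝ, 0 < ε → ε ≤ 1 →
      volume {a : ℝ | a ∈ Ioo 0 Real.pi ∧
        ENNReal.ofReal (10 ^ 9 * (n + 1) ^ 8 * (1 + Real.log ((n + 1) / ε)) / ε) <
          number P Q a} ≤ ENNReal.ofReal ε) ∧
    (∀ ε θ : ℝ, 0 < ε → ε ≤ 1 → ∃ a ∈ Ioo θ (θ + ε), number P Q a ≤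
      ENNReal.ofReal (4 * 10 ^ 9 * (n + 1) ^ 8 * (1 + Real.log ((n + 1) / ε)) / ε)) ∧
    (∀ q : ℝ, 0 < q → q < 1 → ∃ g : ℝ → ℝ≥0∞, Measurable g ∧
      (∀ a ∈ Ioo 0 (2 * Real.pi), number P Q a ^ q ≤ g a) ∧
      ∫⁻ a in Ioo 0 (2 * Real.pi), g a ≤ ENNReal.ofReal (10 ^ 11 * (n + 1) ^ 9 / (1 - q) ^ 2)) ∧
    (∀ ε : ℝ, 0 < ε → ε ≤ 1 →
      (({C | C ∈ closedOrbits P Q 0 ∧ (Survives P Q ε C ∨ Survives P Q (-ε) C)}.encard : ℕ∞) :
        ℝ≥0∞) ≤
      ENNReal.ofReal (8 * 10 ^ 9 * (n + 1) ^ 8 * (1 + Real.log ((n + 1) / ε)) / ε)) ∧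
    (∀ κ : ℝ, 0 < κ → κ ≤ 1 → ∑' C : closedOrbits P Q 0, survival P Q C ^ (1 + κ) ≤
      ENNReal.ofReal (3 * 10 ^ 11 * (n + 1) ^ 9 / κ ^ 2)) ∧
    ∀ C ∈ limitCycles P Q, 0 < survival P Q C := by
  have hF : ContDiff ℝ 2 (H709R2.field P Q) := H709R2.contDiff_field P Q
  refine ⟨fun ε h0 h1 => W960.HQ.mainq hP hQ hne h0 h1, fun ε θ h0 h1 => ?_,
    fun q h0 h1 => W960.HQ.moments hP hQ hne h0 h1, fun ε h0 h1 => ?_, fun κ h0 h1 => ?_,
    fun C hC => ?_⟩
  · obtain ⟨a, ha, h⟩ := W960.HQ.existsq_angle_near hP hQ hne h0 h1 θ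
    exact ⟨a, ha, h⟩
  · have h2 := W960.HQ.persG_mainq hP hQ hne (G := fun _ _ => True) (σ := 1) (Or.inl rfl) h0 h1
    have h3 := W960.HQ.persG_mainq hP hQ hne (G := fun _ _ => True) (σ := -1) (Or.inr rfl) h0 h1
    have h4 : {C | C ∈ closedOrbits P Q 0 ∧ (Survives P Q ε C ∨ Survives P Q (-ε) C)} ⊆
        {C | W960.HP.PersG (H709R2.field P Q) (fun _ _ => True) (1 * ε) C} ∪
        {C | W960.HP.PersG (H709R2.field P Q) (fun _ _ => True) (-1 * ε) C} := by
      rintro C ⟨-, h | h⟩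
      · refine Or.inl ?_
        rw [Set.mem_ofPred_eq, one_mul]
        exact (survives_iff ε C).1 h
      · refine Or.inr ?_
        rw [Set.mem_ofPred_eq, neg_one_mul]
        exact (survives_iff (-ε) C).1 h
    have h5 := (encard_le_encard h4).trans (encard_union_le _ _)
    have h6 := (ENat.toENNReal_le.2 h5)
    rw [ENat.toENNReal_add] at h6
    refine h6.trans ((add_le_add h2 h3).trans (le_of_eq ?_))
    have hc := W960.HQ.cq_pos n h0 h1
    rw [← ENNReal.ofReal_add hc.le hc.le]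
    congr 1
    unfold W960.HQ.cq
    ring
  · have h2 := W960.HQ.sum_rpow hP hQ hne h0 h1 (G := fun _ _ => True) (closedOrbits P Q 0)
    refine le_trans (le_of_eq ?_) h2
    refine tsum_congr fun C => ?_
    unfold survival
    simp only [survives_iff]
  · obtain ⟨hC1, U, hU, hCU, hiso⟩ := hC
    have h1 := Y96.HP.pos_pers hF ((mem_closedOrbits C).1 hC1) hU hCU
      (fun D hD hDU => hiso D ((mem_closedOrbits D).2 hD) hDU) (G := fun _ _ => True)
      (fun _ _ ε₀ hε₀ _ _ _ _ => ⟨ε₀, hε₀, le_rfl, fun _ _ _ => trivial⟩) one_pos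
    unfold survival
    simp only [survives_iff]
    exact h1

end Pool.Agent.Results.MP_95e7ec_an.TypicalRotation
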